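import Mathlib
import Pool.Agent.H342R3.CellDefs
import Pool.Agent.Y317.VS.Ham
import Pool.Agent.Y317.VS.Lim

/-!
The vanishing viscosity limit of the cell problem need not exist for smooth, uniformly convex
Hamiltonians. For every `n ≥ 1` there is a mechanical Hamiltonian `H(x, p) = |p|² - V(x)` with a
potential `V ∈ C^∞(𝕋ⁿ)` for which the normalised solutions `v^ε` of the viscous cell problem have a
continuum of different uniform limits along sequences `ε → 0`: for two points `x`, `y` and a number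
`κ > 0` the difference `u(y) - u(x)` takes every value in `[-κ, κ]` on the set of the uniform limits
`u`. (Author: helper317.)
-/

set_option autoImplicit false

open Set Filter Topology
open scoped ContDiff

namespace Pool.Agent.Results.MP_5fee02_an.UniformlyConvex

open Pool.Agent.H342R3.CellDefs Pool.Agent.H342R3 Pool.Agent.Y317.VS

theorem result (n : ℕ) (hn : 1 ≤ n) :
    ∃ V : E n → ℝ, ContDiff ℝ ∞ V ∧ IsPeriodic V ∧
      IsHamiltonian (fun x p : E n => ‖p‖ ^ 2 - V x) ∧ A1 (fun x p : E n => ‖p‖ ^ 2 - V x) ∧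
      (∀ x, StrongConvexOn univ 2 (fun p : E n => ‖p‖ ^ 2 - V x)) ∧
      (∀ ε ∈ Ioo (0:ℝ) 1, ∃ (c : ℝ) (v : E n → ℝ),
        IsViscousSolution (fun x p : E n => ‖p‖ ^ 2 - V x) ε c v ∧ v 0 = 0 ∧
        ∀ (c' : ℝ) (v' : E n → ℝ), IsViscousSolution (fun x p : E n => ‖p‖ ^ 2 - V x) ε c' v' →
          v' 0 = 0 → c' = c ∧ v' = v) ∧
      ∃ (x y : E n) (κ : ℝ), 0 < κ ∧ ∀ v : ℝ → E n → ℝ,
        (∀ ε ∈ Ioo (0:ℝ) 1, v ε 0 = 0 ∧
          ∃ c : ℝ, IsViscousSolution (fun x p : E n => ‖p‖ ^ 2 - V x) ε c (v ε)) →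
        (∀ l ∈ Icc (-κ) κ, ∃ (e : ℕ → ℝ) (u : E n → ℝ), (∀ k, e k ∈ Ioo (0:ℝ) 1) ∧
          Tendsto e atTop (𝓝 0) ∧ TendstoUniformly (fun k => v (e k)) u atTop ∧
          u y - u x = l) ∧
        (∃ z : E n, ¬ ∃ l : ℝ, Tendsto (fun ε => v ε z) (𝓝[>] 0) (𝓝 l)) ∧
        ¬ ∃ u : E n → ℝ, TendstoUniformly v u (𝓝[>] 0) := by
  set j : Fin n := ⟨0, hn⟩ with hj
  obtain ⟨Ef, wf, vf, hF⟩ := exists_Fam
  have hsol : ∀ ε ∈ Ioo (0:ℝ) 1,
      IsViscousSolution (Hm (n := n) j) ε (-(Ef ε)) (fun x => vf ε (x j)) := fun ε hε =>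
    Hm_sol j hε.1 (hF.sol ε hε.1) (hF.per ε hε.1) (hF.smooth ε hε.1)
  have huniq : ∀ ε ∈ Ioo (0:ℝ) 1, ∀ (c' : ℝ) (v' : E n → ℝ),
      IsViscousSolution (Hm j) ε c' v' → v' 0 = 0 →
      c' = -(Ef ε) ∧ v' = fun x => vf ε (x j) := by
    intro ε hε c' v' hv' h0
    obtain ⟨h1, h2⟩ := Cell.viscous_unique (Hm_hamiltonian j) hε.1 hv' (hsol ε hε)
    refine ⟨h1, ?_⟩
    funext x
    have h3 := h2 x
    simp only at h3
    rw [h0] at h3
    have h4 : (0 : E n) j = 0 := rfl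
    rw [h4, hF.zero ε hε.1] at h3
    linarith
  refine ⟨Pt j, Pt_contDiff j, Pt_periodic j, Hm_hamiltonian j, Hm_A1 j, Hm_strong j, ?_, ?_⟩
  · intro ε hε
    exact ⟨-(Ef ε), fun x => vf ε (x j), hsol ε hε, hF.zero ε hε.1,
      fun c' v' h1 h2 => huniq ε hε c' v' h1 h2⟩
  refine ⟨EuclideanSpace.single j (1 / 8 : ℝ), EuclideanSpace.single j (3 / 8 : ℝ), κ, κ_pos,
    fun v hv => ?_⟩
  have hveq : ∀ ε ∈ Ioo (0:ℝ) 1, v ε = fun x => vf ε (x j) := by
    intro ε hε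
    obtain ⟨h0, c, hc⟩ := hv ε hε
    exact (huniq ε hε c (v ε) hc h0).2
  have hlim : ∀ l ∈ Icc (-κ) κ, ∃ (e : ℕ → ℝ) (u : E n → ℝ), (∀ k, e k ∈ Ioo (0:ℝ) 1) ∧
      Tendsto e atTop (𝓝 0) ∧ TendstoUniformly (fun k => v (e k)) u atTop ∧
      u (EuclideanSpace.single j (3 / 8 : ℝ)) - u (EuclideanSpace.single j (1 / 8 : ℝ)) = l := by
    intro l hl
    have hex : ∀ k : ℕ, ∃ ε ∈ Ioo (0:ℝ) (1 / ((k:ℝ) + 1)),
        vf ε (3 / 8) - vf ε (1 / 8) = l := fun k => hF.attain hl (by positivity)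
    choose e he hel using hex
    have he1 : ∀ k, e k ∈ Ioo (0:ℝ) 1 := fun k => ⟨(he k).1, lt_of_lt_of_le (he k).2 (by
      rw [div_le_one (by positivity)]
      linarith [k.cast_nonneg (α := ℝ)])⟩
    have het : Tendsto e atTop (𝓝 0) := squeeze_zero (fun k => (he k).1.le)
      (fun k => (he k).2.le) tendsto_one_div_add_atTop_nhds_zero_nat
    obtain ⟨φ, u, hφ, hu⟩ := hF.subseq (fun k => (he1 k).1)
    refine ⟨fun k => e (φ k), fun x => u (x j), fun k => he1 _, het.comp hφ.tendsto_atTop, ?_, ?_⟩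
    · have h1 : (fun k => v (e (φ k))) = fun k => fun x : E n => vf (e (φ k)) (x j) :=
        funext fun k => hveq _ (he1 _)
      rw [h1]
      exact hu.comp fun x : E n => x j
    · have h1 : Tendsto (fun k => vf (e (φ k)) (3 / 8) - vf (e (φ k)) (1 / 8)) atTop
          (𝓝 (u (3 / 8) - u (1 / 8))) := (hu.tendsto_at _).sub (hu.tendsto_at _)
      have h2 : (fun k => vf (e (φ k)) (3 / 8) - vf (e (φ k)) (1 / 8)) = fun _ => l :=
        funext fun k => hel (φ k)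
      rw [h2] at h1
      have h3 := tendsto_nhds_unique h1 tendsto_const_nhds
      simpa using h3
  have hno : ¬ ∃ L : ℝ, Tendsto (fun ε => v ε (EuclideanSpace.single j (3 / 8 : ℝ)) -
      v ε (EuclideanSpace.single j (1 / 8 : ℝ))) (𝓝[>] 0) (𝓝 L) := by
    rintro ⟨L, hL⟩
    have hval : ∀ l ∈ Icc (-κ) κ, L = l := by
      intro l hl
      obtain ⟨e, u, he, het, hu, hul⟩ := hlim l hl
      have h1 : Tendsto e atTop (𝓝[>] 0) :=
        tendsto_nhdsWithin_iff.2 ⟨het, Eventually.of_forall fun k => (he k).1⟩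
      have h2 := hL.comp h1
      have h3 := (hu.tendsto_at (EuclideanSpace.single j (3 / 8 : ℝ))).sub
        (hu.tendsto_at (EuclideanSpace.single j (1 / 8 : ℝ)))
      rw [hul] at h3
      exact tendsto_nhds_unique h2 h3
    have hκ := κ_pos
    have h1 := hval κ ⟨by linarith, le_rfl⟩
    have h2 := hval (-κ) ⟨le_rfl, by linarith⟩
    linarith
  refine ⟨hlim, ?_, ?_⟩
  · by_contra hcon
    push Not at hcon
    obtain ⟨a, ha⟩ := hcon (EuclideanSpace.single j (3 / 8 : ℝ))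
    obtain ⟨b, hb⟩ := hcon (EuclideanSpace.single j (1 / 8 : ℝ))
    exact hno ⟨a - b, ha.sub hb⟩
  · rintro ⟨u, hu⟩
    exact hno ⟨_, (hu.tendsto_at _).sub (hu.tendsto_at _)⟩

end Pool.Agent.Results.MP_5fee02_an.UniformlyConvex
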